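import Pool.Agent.Run7.h534.RS.Reps

/-!
# Sums of the squares of the densities
-/

set_option autoImplicit false

namespace Pool.Agent.Run7.h534.RS

/-- the sup norm of a lattice point -/
lemma norm_lt_iff {d : ℕ} (m : Fin d → ℤ) (R : ℕ) (hR : 1 ≤ R) :
    ‖m‖ < (R : ℝ) ↔ m ∈ bx d R := by
  rw [mem_bx, pi_norm_lt_iff (by exact_mod_cast hR)]
  refine forall_congr' fun i => ?_
  rw [Int.norm_eq_abs]
  exact_mod_cast Iff.rfl

lemma dyadic {d : ℕ} (κ β : ℝ) (hκ : κ ≤ d) (hβ : 0 < β) (hβκ : 2 * κ - d ≤ β) (n : ℕ) :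
    ∑ m ∈ bx d (2 ^ n), ((1 + ‖m‖) ^ (κ - d)) ^ 2 ≤
      (1 + (4 : ℝ) ^ d / ((2 : ℝ) ^ β - 1)) * (2 : ℝ) ^ (n * β) := by
  have h2β : 0 < (2 : ℝ) ^ β - 1 := by
    have := Real.one_lt_rpow (x := 2) (by norm_num) hβ
    linarith
  induction n with
  | zero =>
    have h0 : bx d (2 ^ 0) ⊆ {0} := by
      intro m hm
      rw [mem_bx] at hm
      rw [Finset.mem_singleton]
      funext i
      have := hm i
      rw [abs_lt] at this
      simp only [pow_zero, Nat.cast_one] at this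
      show m i = 0
      omega
    calc ∑ m ∈ bx d (2 ^ 0), ((1 + ‖m‖) ^ (κ - d)) ^ 2
        ≤ ∑ m ∈ ({0} : Finset (Fin d → ℤ)), ((1 + ‖m‖) ^ (κ - d)) ^ 2 :=
          Finset.sum_le_sum_of_subset_of_nonneg h0 fun _ _ _ => by positivity
      _ = 1 := by
        rw [Finset.sum_singleton, norm_zero, add_zero, Real.one_rpow, one_pow]
      _ ≤ _ := by
        simp only [Nat.cast_zero, zero_mul, Real.rpow_zero, mul_one]
        have : 0 ≤ (4 : ℝ) ^ d / ((2 : ℝ) ^ β - 1) := by positivity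
        linarith
  | succ n ih =>
    have hsub : bx d (2 ^ n) ⊆ bx d (2 ^ (n + 1)) :=
      bx_mono (Nat.pow_le_pow_right (by norm_num) (by omega))
    rw [← Finset.sum_sdiff hsub]
    have h1 : ∑ m ∈ bx d (2 ^ (n + 1)) \ bx d (2 ^ n), ((1 + ‖m‖) ^ (κ - d)) ^ 2 ≤
        (4 : ℝ) ^ d * (2 : ℝ) ^ (n * β) := by
      have h2 : ∀ m ∈ bx d (2 ^ (n + 1)) \ bx d (2 ^ n),
          ((1 + ‖m‖) ^ (κ - d)) ^ 2 ≤ (2 : ℝ) ^ ((n : ℝ) * (2 * (κ - d))) := by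
        intro m hm
        rw [Finset.mem_sdiff, ← norm_lt_iff m (2 ^ n) (Nat.one_le_two_pow), not_lt] at hm
        have h3 : ((2 : ℝ) ^ (n : ℝ)) ≤ 1 + ‖m‖ := by
          have := hm.2
          push_cast at this
          rw [Real.rpow_natCast]
          linarith
        have h4 : (1 + ‖m‖) ^ (κ - d) ≤ ((2 : ℝ) ^ (n : ℝ)) ^ (κ - d) :=
          Real.rpow_le_rpow_of_nonpos (by positivity) h3 (by linarith)
        calc ((1 + ‖m‖) ^ (κ - d)) ^ 2 ≤ (((2 : ℝ) ^ (n : ℝ)) ^ (κ - d)) ^ 2 := by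
              gcongr
          _ = (2 : ℝ) ^ ((n : ℝ) * (2 * (κ - d))) := by
              rw [← Real.rpow_mul (by norm_num), ← Real.rpow_natCast, ← Real.rpow_mul (by norm_num)]
              congr 1
              push_cast
              ring
      refine (Finset.sum_le_card_nsmul _ _ _ h2).trans ?_
      rw [nsmul_eq_mul]
      have h5 : (((bx d (2 ^ (n + 1)) \ bx d (2 ^ n)).card : ℕ) : ℝ) ≤
          (4 : ℝ) ^ d * (2 : ℝ) ^ ((n : ℝ) * d) := by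
        have h6 := (Finset.card_le_card (Finset.sdiff_subset (s := bx d (2 ^ (n + 1)))
          (t := bx d (2 ^ n)))).trans (card_bx d (2 ^ (n + 1)))
        calc (((bx d (2 ^ (n + 1)) \ bx d (2 ^ n)).card : ℕ) : ℝ) ≤
            (((2 * 2 ^ (n + 1)) ^ d : ℕ) : ℝ) := by exact_mod_cast h6
          _ = (4 : ℝ) ^ d * (2 : ℝ) ^ ((n : ℝ) * d) := by
            rw [Real.rpow_mul (by norm_num), Real.rpow_natCast, Real.rpow_natCast]
            push_cast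
            rw [← mul_pow]
            congr 1
            ring
      calc (((bx d (2 ^ (n + 1)) \ bx d (2 ^ n)).card : ℕ) : ℝ) *
            (2 : ℝ) ^ ((n : ℝ) * (2 * (κ - d)))
          ≤ ((4 : ℝ) ^ d * (2 : ℝ) ^ ((n : ℝ) * d)) * (2 : ℝ) ^ ((n : ℝ) * (2 * (κ - d))) :=
            mul_le_mul_of_nonneg_right h5 (by positivity)
        _ = (4 : ℝ) ^ d * (2 : ℝ) ^ ((n : ℝ) * (2 * κ - d)) := by
            rw [mul_assoc, ← Real.rpow_add (by norm_num)]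
            congr 2
            ring
        _ ≤ (4 : ℝ) ^ d * (2 : ℝ) ^ (n * β) := by
            refine mul_le_mul_of_nonneg_left ?_ (by positivity)
            refine Real.rpow_le_rpow_of_exponent_le (by norm_num) ?_
            exact mul_le_mul_of_nonneg_left hβκ (by positivity)
    have h7 : (2 : ℝ) ^ (((n + 1 : ℕ) : ℝ) * β) = (2 : ℝ) ^ (n * β) * (2 : ℝ) ^ β := by
      rw [← Real.rpow_add (by norm_num)]
      congr 1
      push_cast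
      ring
    rw [h7]
    have h8 : (4 : ℝ) ^ d + (1 + (4 : ℝ) ^ d / ((2 : ℝ) ^ β - 1)) ≤
        (1 + (4 : ℝ) ^ d / ((2 : ℝ) ^ β - 1)) * (2 : ℝ) ^ β := by
      have e1 : (4 : ℝ) ^ d / ((2 : ℝ) ^ β - 1) * ((2 : ℝ) ^ β - 1) = (4 : ℝ) ^ d :=
        div_mul_cancel₀ _ h2β.ne'
      nlinarith
    have hp : (0 : ℝ) < (2 : ℝ) ^ (n * β) := by positivity
    calc ∑ m ∈ bx d (2 ^ (n + 1)) \ bx d (2 ^ n), ((1 + ‖m‖) ^ (κ - d)) ^ 2 +
          ∑ m ∈ bx d (2 ^ n), ((1 + ‖m‖) ^ (κ - d)) ^ 2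
        ≤ (4 : ℝ) ^ d * (2 : ℝ) ^ (n * β) +
          (1 + (4 : ℝ) ^ d / ((2 : ℝ) ^ β - 1)) * (2 : ℝ) ^ (n * β) := add_le_add h1 ih
      _ = ((4 : ℝ) ^ d + (1 + (4 : ℝ) ^ d / ((2 : ℝ) ^ β - 1))) * (2 : ℝ) ^ (n * β) := by ring
      _ ≤ ((1 + (4 : ℝ) ^ d / ((2 : ℝ) ^ β - 1)) * (2 : ℝ) ^ β) * (2 : ℝ) ^ (n * β) :=
          mul_le_mul_of_nonneg_right h8 hp.le
      _ = _ := by ring

/-- The sums of the squares of the densities `(1+|m|)^(κ-d)` over the cubes. -/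
theorem dens_sum {d : ℕ} (κ β : ℝ) (hκ : κ ≤ d) (hβ : 0 < β) (hβκ : 2 * κ - d ≤ β) :
    ∃ A : ℝ, 0 ≤ A ∧ ∀ R : ℕ, 1 ≤ R →
      ∑ m ∈ bx d R, ((1 + ‖m‖) ^ (κ - d)) ^ 2 ≤ A * (R : ℝ) ^ β := by
  have h2β : 0 < (2 : ℝ) ^ β - 1 := by
    have := Real.one_lt_rpow (x := 2) (by norm_num) hβ
    linarith
  have hA0 : 0 ≤ 1 + (4 : ℝ) ^ d / ((2 : ℝ) ^ β - 1) := by positivity
  refine ⟨(1 + (4 : ℝ) ^ d / ((2 : ℝ) ^ β - 1)) * (2 : ℝ) ^ β, by positivity, ?_⟩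
  intro R hR
  obtain ⟨n, hn⟩ : ∃ n, n = Nat.log 2 R := ⟨_, rfl⟩
  have h1 : 2 ^ n ≤ R := by rw [hn]; exact Nat.pow_log_le_self 2 (by omega)
  have h2 : R < 2 ^ (n + 1) := by rw [hn]; exact Nat.lt_pow_succ_log_self (by norm_num) R
  have h3 : (2 : ℝ) ^ (((n + 1 : ℕ) : ℝ) * β) ≤ (2 : ℝ) ^ β * (R : ℝ) ^ β := by
    have e1 : (2 : ℝ) ^ (((n + 1 : ℕ) : ℝ) * β) = (2 : ℝ) ^ β * ((2 : ℝ) ^ n) ^ β := by
      rw [← Real.rpow_natCast 2 n, ← Real.rpow_mul (by norm_num), ← Real.rpow_add (by norm_num)]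
      congr 1
      push_cast
      ring
    rw [e1]
    refine mul_le_mul_of_nonneg_left ?_ (by positivity)
    refine Real.rpow_le_rpow (by positivity) ?_ hβ.le
    exact_mod_cast h1
  calc ∑ m ∈ bx d R, ((1 + ‖m‖) ^ (κ - d)) ^ 2
      ≤ ∑ m ∈ bx d (2 ^ (n + 1)), ((1 + ‖m‖) ^ (κ - d)) ^ 2 :=
        Finset.sum_le_sum_of_subset_of_nonneg (bx_mono h2.le) fun _ _ _ => by positivity
    _ ≤ (1 + (4 : ℝ) ^ d / ((2 : ℝ) ^ β - 1)) * (2 : ℝ) ^ (((n + 1 : ℕ) : ℝ) * β) :=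
        dyadic κ β hκ hβ hβκ (n + 1)
    _ ≤ (1 + (4 : ℝ) ^ d / ((2 : ℝ) ^ β - 1)) * ((2 : ℝ) ^ β * (R : ℝ) ^ β) :=
        mul_le_mul_of_nonneg_left h3 hA0
    _ = _ := by ring

end Pool.Agent.Run7.h534.RS
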