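import Pool.Agent.Run7.h534.RS.Reps

/-!
# Random subsets of `ℤ^d`: almost surely few representations
-/

set_option autoImplicit false

namespace Pool.Agent.Run7.h534.RS

open MeasureTheory ProbabilityTheory Filter
open scoped ENNReal

variable {d : ℕ} {Ω : Type} [MeasurableSpace Ω]

/-- `exp(a) 2^(-2a) ≤ 1` for `a ≥ 0` -/
lemma exp_two (a : ℝ) (ha : 0 ≤ a) : Real.exp a * (2 : ℝ) ^ (-(2 * a)) ≤ 1 := by
  have h1 : (2 : ℝ) ^ (-(2 * a)) = Real.exp (-(2 * a) * Real.log 2) := by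
    rw [Real.rpow_def_of_pos (by norm_num)]
    congr 1
    ring
  rw [h1, ← Real.exp_add]
  have h2 := Real.log_two_gt_d9
  have h3 : a + -(2 * a) * Real.log 2 ≤ 0 := by nlinarith
  exact Real.exp_le_one_iff.2 h3

open Classical in
/-- the bad event at scale `R` -/
def Bad (B : (Fin d → ℤ) → Set Ω) (x : ℝ) (R : ℕ) : Set Ω :=
  ⋃ v ∈ bx d (2 * R), {ω | x ≤ (((half R v).filter fun m => ω ∈ B m ∩ B (v - m)).card : ℝ)}

lemma bad_le (P : Measure Ω) [IsProbabilityMeasure P] (B : (Fin d → ℤ) → Set Ω)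
    (hB : ∀ m, MeasurableSet (B m)) (hind : iIndepSet B P) (R : ℕ) (hR : 1 ≤ R) (μ : ℝ)
    (hμ0 : 0 ≤ μ) (hμ : ∑ m ∈ bx d R, (P (B m)).toReal ^ 2 ≤ μ) :
    P (Bad B (2 * μ + ((d : ℝ) + 2) * Real.logb 2 R) R) ≤
      ENNReal.ofReal ((4 : ℝ) ^ d * (1 / (R : ℝ) ^ 2)) := by
  have hR0 : (0 : ℝ) < R := by exact_mod_cast hR
  obtain ⟨x, hx⟩ : ∃ x : ℝ, x = 2 * μ + ((d : ℝ) + 2) * Real.logb 2 R := ⟨_, rfl⟩
  rw [← hx]
  have h1 : P (Bad B x R) ≤ ∑ v ∈ bx d (2 * R), ENNReal.ofReal (Real.exp μ * (2 : ℝ) ^ (-x)) := by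
    unfold Bad
    refine (measure_biUnion_finset_le _ _).trans ?_
    exact Finset.sum_le_sum fun v _ => tail_reps P B hB hind R v μ x hμ
  refine h1.trans ?_
  rw [Finset.sum_const, nsmul_eq_mul, ← ENNReal.ofReal_natCast, ← ENNReal.ofReal_mul (by positivity)]
  refine ENNReal.ofReal_le_ofReal ?_
  have h2 : (((bx d (2 * R)).card : ℕ) : ℝ) ≤ (4 : ℝ) ^ d * (R : ℝ) ^ d := by
    have := card_bx d (2 * R)
    calc (((bx d (2 * R)).card : ℕ) : ℝ) ≤ (((2 * (2 * R)) ^ d : ℕ) : ℝ) := by exact_mod_cast this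
      _ = (4 : ℝ) ^ d * (R : ℝ) ^ d := by
        push_cast
        rw [← mul_pow]
        ring
  have h3 : Real.exp μ * (2 : ℝ) ^ (-x) ≤ 1 / (R : ℝ) ^ (d + 2) := by
    have e1 : (2 : ℝ) ^ (-x) = (2 : ℝ) ^ (-(2 * μ)) * (1 / (R : ℝ) ^ (d + 2)) := by
      rw [hx, neg_add, Real.rpow_add (by norm_num)]
      congr 1
      rw [← neg_mul, mul_comm, Real.rpow_mul (by norm_num), Real.rpow_logb (by norm_num)
        (by norm_num) hR0, Real.rpow_neg hR0.le, one_div]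
      congr 1
      have e2 : ((d : ℝ) + 2) = ((d + 2 : ℕ) : ℝ) := by push_cast; ring
      rw [e2, Real.rpow_natCast]
    rw [e1, ← mul_assoc]
    calc Real.exp μ * (2 : ℝ) ^ (-(2 * μ)) * (1 / (R : ℝ) ^ (d + 2))
        ≤ 1 * (1 / (R : ℝ) ^ (d + 2)) :=
          mul_le_mul_of_nonneg_right (exp_two μ hμ0) (by positivity)
      _ = _ := one_mul _
  calc (((bx d (2 * R)).card : ℕ) : ℝ) * (Real.exp μ * (2 : ℝ) ^ (-x))
      ≤ ((4 : ℝ) ^ d * (R : ℝ) ^ d) * (1 / (R : ℝ) ^ (d + 2)) :=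
        mul_le_mul h2 h3 (by positivity) (by positivity)
    _ = (4 : ℝ) ^ d * (1 / (R : ℝ) ^ 2) := by
        rw [pow_add]
        field_simp

lemma reps_empty (S : Set (Fin d → ℤ)) (R : ℕ) (v : Fin d → ℤ) (hv : v ∉ bx d (2 * R)) :
    reps S R v = ∅ := by
  classical
  unfold reps
  rw [Finset.filter_eq_empty_iff]
  rintro m hm ⟨_, _, h⟩
  apply hv
  rw [mem_bx] at hm h ⊢
  intro i
  have h1 := hm i
  have h2 := h i
  rw [Pi.sub_apply] at h2
  rw [abs_lt] at h1 h2 ⊢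
  push_cast
  omega

/-- Almost surely the numbers of representations `v = m + m'` with `m, m' ∈ S ∩ (-R, R)^d` are
`O(R^β + log R)`. -/
theorem ae_reps (P : Measure Ω) [IsProbabilityMeasure P]
    (B : (Fin d → ℤ) → Set Ω) (hB : ∀ m, MeasurableSet (B m)) (hind : iIndepSet B P)
    (A β : ℝ) (hA : 0 ≤ A) (hβ : 0 ≤ β)
    (hsum : ∀ R : ℕ, 1 ≤ R → ∑ m ∈ bx d R, (P (B m)).toReal ^ 2 ≤ A * (R : ℝ) ^ β) :
    ∀ᵐ ω ∂P, ∃ C : ℝ, 0 ≤ C ∧ ∀ R : ℕ, 1 ≤ R → ∀ v : Fin d → ℤ,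
      ((reps {m | ω ∈ B m} R v).card : ℝ) ≤ C * ((R : ℝ) ^ β + Real.log R) := by
  classical
  obtain ⟨x, hx⟩ : ∃ x : ℕ → ℝ, x = fun R : ℕ =>
    2 * (A * (R : ℝ) ^ β) + ((d : ℝ) + 2) * Real.logb 2 R := ⟨_, rfl⟩
  have hsumm : ∑' n : ℕ, P (Bad B (x (n + 1)) (n + 1)) ≠ ∞ := by
    have h1 : ∀ n : ℕ, P (Bad B (x (n + 1)) (n + 1)) ≤
        ENNReal.ofReal ((4 : ℝ) ^ d * (1 / ((n + 1 : ℕ) : ℝ) ^ 2)) := by
      intro n
      rw [hx]
      exact bad_le P B hB hind (n + 1) (by omega) _ (by positivity) (hsum (n + 1) (by omega))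
    have h2 : Summable fun n : ℕ => (4 : ℝ) ^ d * (1 / ((n + 1 : ℕ) : ℝ) ^ 2) :=
      ((summable_nat_add_iff 1).2 (Real.summable_one_div_nat_pow.2 (by norm_num))).mul_left _
    exact ne_top_of_le_ne_top h2.tsum_ofReal_ne_top (ENNReal.tsum_le_tsum h1)
  have hae := ae_eventually_notMem hsumm
  filter_upwards [hae] with ω hω
  obtain ⟨N, hN⟩ := eventually_atTop.1 hω
  obtain ⟨K, hK⟩ : ∃ K : ℝ, K = ((bx d (N + 1)).card : ℝ) := ⟨_, rfl⟩
  have hK0 : 0 ≤ K := by rw [hK]; positivity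
  refine ⟨4 * A + 1 + 4 * ((d : ℝ) + 2) + K, by positivity, ?_⟩
  intro R hR v
  have hR1 : (1 : ℝ) ≤ R := by exact_mod_cast hR
  have hpow : 1 ≤ (R : ℝ) ^ β := Real.one_le_rpow hR1 hβ
  have hlog : 0 ≤ Real.log R := Real.log_nonneg hR1
  by_cases hRN : R < N + 1
  · have h1 : ((reps {m | ω ∈ B m} R v).card : ℝ) ≤ K := by
      rw [hK]
      have h2 : reps {m | ω ∈ B m} R v ⊆ bx d (N + 1) := by
        unfold reps
        exact (Finset.filter_subset _ _).trans (bx_mono hRN.le)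
      exact_mod_cast Finset.card_le_card h2
    calc ((reps {m | ω ∈ B m} R v).card : ℝ) ≤ K := h1
      _ = K * 1 := (mul_one K).symm
      _ ≤ (4 * A + 1 + 4 * ((d : ℝ) + 2) + K) * ((R : ℝ) ^ β + Real.log R) :=
          mul_le_mul (by linarith [show (0 : ℝ) ≤ 4 * ((d : ℝ) + 2) by positivity])
            (by linarith) zero_le_one (by positivity)
  · rw [not_lt] at hRN
    by_cases hv : v ∈ bx d (2 * R)
    · have h1 := hN (R - 1) (by omega)
      have h2 : R - 1 + 1 = R := by omega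
      rw [h2] at h1
      unfold Bad at h1
      simp only [Set.mem_iUnion, not_exists] at h1
      have h3 := h1 v hv
      rw [Set.mem_ofPred_eq, not_le] at h3
      have h4 := reps_card {m | ω ∈ B m} R v
      have h5 : (((half R v).filter fun m => m ∈ {m | ω ∈ B m} ∧ v - m ∈ {m | ω ∈ B m}).card : ℝ) ≤
          x R := by
        refine le_of_eq_of_le ?_ h3.le
        congr 1
      have h6 : ((reps {m | ω ∈ B m} R v).card : ℝ) ≤ 2 * x R + 1 := by
        calc ((reps {m | ω ∈ B m} R v).card : ℝ) ≤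
            ((2 * ((half R v).filter fun m => m ∈ {m | ω ∈ B m} ∧
              v - m ∈ {m | ω ∈ B m}).card + 1 : ℕ) : ℝ) := by exact_mod_cast h4
          _ ≤ 2 * x R + 1 := by
            push_cast
            linarith
      have h7 : Real.logb 2 R ≤ 2 * Real.log R := by
        rw [Real.logb, div_le_iff₀ (Real.log_pos (by norm_num))]
        have := Real.log_two_gt_d9
        nlinarith
      have h8 : x R ≤ 2 * A * (R : ℝ) ^ β + ((d : ℝ) + 2) * (2 * Real.log R) := by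
        rw [hx]
        have : ((d : ℝ) + 2) * Real.logb 2 R ≤ ((d : ℝ) + 2) * (2 * Real.log R) :=
          mul_le_mul_of_nonneg_left h7 (by positivity)
        show 2 * (A * (R : ℝ) ^ β) + ((d : ℝ) + 2) * Real.logb 2 R ≤ _
        linarith
      calc ((reps {m | ω ∈ B m} R v).card : ℝ) ≤ 2 * x R + 1 := h6
        _ ≤ (4 * A + 1) * (R : ℝ) ^ β + 4 * ((d : ℝ) + 2) * Real.log R := by nlinarith
        _ ≤ (4 * A + 1 + 4 * ((d : ℝ) + 2) + K) * (R : ℝ) ^ β +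
            (4 * A + 1 + 4 * ((d : ℝ) + 2) + K) * Real.log R := by
            refine add_le_add (mul_le_mul_of_nonneg_right ?_ (by positivity))
              (mul_le_mul_of_nonneg_right ?_ hlog)
            · linarith [show (0 : ℝ) ≤ 4 * ((d : ℝ) + 2) by positivity]
            · linarith
        _ = _ := by ring
    · rw [reps_empty _ R v hv]
      simp only [Finset.card_empty, Nat.cast_zero]
      positivity

end Pool.Agent.Run7.h534.RS
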