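import Pool.Agent.Run7.h534.RS.AE
import Pool.Agent.Run7.h88.LS.Cor

/-!
# Random subsets of `ℤ^d`: the wave equation
-/

set_option autoImplicit false

namespace Pool.Agent.Run7.h534.RS

open MeasureTheory ProbabilityTheory Filter
open Pool.Agent.N303.LS Pool.Agent.N262.LS Pool.Agent.Run7.h88.LS
open scoped ENNReal FourierTransform RealInnerProductSpace SchwartzMap

open Classical in
lemma ncard_reps {d : ℕ} (S : Set (Fin d → ℤ)) (R : ℕ) (v : Fin d → ℤ) :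
    Set.ncard {m : Fin d → ℤ | m ∈ S ∧ v - m ∈ S ∧ (∀ j, |m j| < R) ∧ ∀ j, |(v - m) j| < R} =
      (reps S R v).card := by
  rw [← Set.ncard_coe_finset]
  congr 1
  ext m
  unfold reps
  rw [Finset.mem_coe, Finset.mem_filter, mem_bx, mem_bx]
  simp only [Set.mem_ofPred_eq]
  tauto

/-- the estimate for data with spectrum near `S` -/
def Est {d : ℕ} (S : Set (Fin d → ℤ)) (p s C : ℝ) : Prop :=
  ∀ (u₀ u₁ : 𝓢(E d, ℂ)), Spec S u₀ → Spec S u₁ → ∀ t : ℝ, 0 ≤ t → t ≤ 2 →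
    ∫⁻ x : E d, ‖wave (𝓕 (u₀ : E d → ℂ)) (𝓕 (u₁ : E d → ℂ)) t x‖ₑ ^ p ≤
      ENNReal.ofReal C *
        ((∫⁻ x : E d, ‖inv (fun ξ => bes s ξ * 𝓕 (u₀ : E d → ℂ) ξ) x‖ₑ ^ p) +
          ∫⁻ x : E d, ‖inv (fun ξ => bes (s - 1) ξ * 𝓕 (u₁ : E d → ℂ) ξ) x‖ₑ ^ p)

/-- few representations imply the estimate -/
theorem est_of_reps {d : ℕ} (S : Set (Fin d → ℤ)) (β C : ℝ) (hβ : 0 ≤ β) (hC : 0 ≤ C)
    (hrep : ∀ R : ℕ, 1 ≤ R → ∀ v : Fin d → ℤ,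
      ((reps S R v).card : ℝ) ≤ C * ((R : ℝ) ^ β + Real.log R))
    (p s : ℝ) (hp : 2 ≤ p) (hp4 : p ≤ 4) (hs : β * (1 / 2 - 1 / p) < s)
    (h2 : β * (1 / 2 - 1 / p) < 2) : ∃ K : ℝ, 0 < K ∧ Est S p s K := by
  classical
  have hp0 : 0 < p := by linarith
  obtain ⟨a, ha⟩ : ∃ a : ℝ, a = 1 / 2 - 1 / p := ⟨_, rfl⟩
  have ha0 : 0 ≤ a := by
    rw [ha, sub_nonneg]
    exact one_div_le_one_div_of_le (by norm_num) hp
  have ha1 : a ≤ 1 := by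
    have : 0 < 1 / p := by positivity
    linarith
  rw [← ha] at hs h2
  obtain ⟨θ, hθ⟩ : ∃ θ : ℝ, θ = (β * a + min s 2) / 2 := ⟨_, rfl⟩
  have hm : β * a < min s 2 := lt_min hs h2
  have hm1 : min s 2 ≤ s := min_le_left _ _
  have hm2 : min s 2 ≤ 2 := min_le_right _ _
  have hβa : 0 ≤ β * a := mul_nonneg hβ ha0
  have t1 : β * a < θ := by rw [hθ]; linarith
  have t2 : θ < s := by rw [hθ]; linarith
  have t3 : θ < 2 := by rw [hθ]; linarith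
  obtain ⟨δ, hδ⟩ : ∃ δ : ℝ, δ = θ - β * a := ⟨_, rfl⟩
  have hδ0 : 0 < δ := by rw [hδ]; linarith
  have t4 : (β + δ) * a ≤ θ := by nlinarith
  have hEN := Pool.Agent.N655.LS.t_en Pool.Agent.N362.LS.t_ena Pool.Agent.N303.LS.t_enb
  have hLLG := Pool.Agent.N170.LS.t_llg Pool.Agent.N764.LS.PD.t_pd Pool.Agent.N562.LS.t_bw
  have hBP := Pool.Agent.N303.LS.bp Pool.Agent.N558.LS.t_mul Pool.Agent.N413.LSBES.t_bes
  have hLPK := Pool.Agent.N297.LPK.t_lpk (Pool.Agent.N441.LS.t_lpa Pool.Agent.N558.LS.t_mul)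
  obtain ⟨K, hK, hest⟩ := Pool.Agent.N303.LS.fin6 hLLG hEN Pool.Agent.N287.LS.t_you hLPK hBP d p θ s
    hp (hβa.trans t1.le) t3 t2
  obtain ⟨A, hA⟩ : ∃ A : ℝ, A = C * (1 + 1 / δ) := ⟨_, rfl⟩
  have hA0 : 0 ≤ A := by rw [hA]; positivity
  obtain ⟨Λ, hΛ⟩ : ∃ Λ : ℝ, Λ = ((2 : ℝ) ^ d) ^ (1 / p) * A ^ (1 / 2 - 1 / p) := ⟨_, rfl⟩
  have hΛ0 : 0 ≤ Λ := by rw [hΛ]; positivity
  have hL : ∀ R : ℕ, 1 ≤ R → LamSet p (Λ * (R : ℝ) ^ θ) {m | m ∈ S ∧ ∀ i, |m i| < R} := by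
    intro R hR
    have hR1 : (1 : ℝ) ≤ R := by exact_mod_cast hR
    have key := lamSet_rep (fun m => m ∈ S) p θ (β + δ) A hp hp4 (by rw [← ha]; exact t4) hA0
      True R hR ?_
    · have hset : {m : Fin d → ℤ | (m ∈ S) = True ∧ ∀ j, |m j| < R} =
          {m | m ∈ S ∧ ∀ i, |m i| < R} := by
        ext m
        simp only [Set.mem_ofPred_eq, eq_iff_iff, iff_true]
      rw [hset] at key
      rw [hΛ]
      exact key
    · intro T hT v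
      have h1 := prs_card (fun m => m ∈ S) True R T hT v
      have h3 : {m : Fin d → ℤ | (m ∈ S) = True ∧ (v - m ∈ S) = True ∧
          (∀ j, |m j| < R) ∧ ∀ j, |(v - m) j| < R} =
          {m : Fin d → ℤ | m ∈ S ∧ v - m ∈ S ∧ (∀ j, |m j| < R) ∧ ∀ j, |(v - m) j| < R} := by
        ext m
        simp only [Set.mem_ofPred_eq, eq_iff_iff, iff_true]
      rw [h3, ncard_reps] at h1
      have h4 : ((prs T v).card : ℝ) ≤ ((reps S R v).card : ℝ) := by exact_mod_cast h1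
      refine h4.trans ((hrep R hR v).trans ?_)
      have h5 : Real.log R ≤ (R : ℝ) ^ δ / δ := Real.log_le_rpow_div (by linarith) hδ0
      have h6 : (R : ℝ) ^ δ ≤ (R : ℝ) ^ (β + δ) :=
        Real.rpow_le_rpow_of_exponent_le hR1 (by linarith)
      have h7 : (R : ℝ) ^ β ≤ (R : ℝ) ^ (β + δ) :=
        Real.rpow_le_rpow_of_exponent_le hR1 (by linarith)
      have h8 : (R : ℝ) ^ δ / δ ≤ (R : ℝ) ^ (β + δ) / δ := by gcongr
      calc C * ((R : ℝ) ^ β + Real.log R) ≤ C * ((R : ℝ) ^ (β + δ) + (R : ℝ) ^ (β + δ) / δ) :=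
            mul_le_mul_of_nonneg_left (by linarith) hC
        _ = A * (R : ℝ) ^ (β + δ) := by rw [hA]; ring
  have hres := hest S Λ hΛ0 hL
  refine ⟨K * Λ ^ p + 1, by positivity, ?_⟩
  intro u₀ u₁ h0 h1 t ht0 ht2
  exact (hres u₀ u₁ h0 h1 t ht0 ht2).trans
    (mul_le_mul_left (ENNReal.ofReal_le_ofReal (by linarith)) _)

end Pool.Agent.Run7.h534.RS
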