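import Mathlib

/-!
# Random subsets of `ℤ^d`: numbers of representations `v = m + m'`
-/

set_option autoImplicit false

namespace Pool.Agent.Run7.h534.RS

open MeasureTheory ProbabilityTheory
open scoped ENNReal

variable {ι Ω : Type} [MeasurableSpace Ω]

open Classical in
/-- `E 2^X = ∏ (1 + P(C_i))` for the number `X` of events of a finite family for which the
intersections have product probabilities. -/
lemma exp_count (P : Measure Ω) (C : ι → Set Ω) (I : Finset ι)
    (hC : ∀ i, MeasurableSet (C i))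
    (hP : ∀ F : Finset ι, F ⊆ I → P (⋂ i ∈ F, C i) = ∏ i ∈ F, P (C i)) :
    ∫⁻ ω, (2 : ℝ≥0∞) ^ (I.filter fun i => ω ∈ C i).card ∂P = ∏ i ∈ I, (1 + P (C i)) := by
  rw [Finset.prod_one_add]
  have h1 : ∀ ω, (2 : ℝ≥0∞) ^ (I.filter fun i => ω ∈ C i).card =
      ∑ F ∈ I.powerset, (⋂ i ∈ F, C i).indicator (fun _ => (1 : ℝ≥0∞)) ω := by
    intro ω
    have h2 : (I.filter fun i => ω ∈ C i).powerset =
        I.powerset.filter fun F => ω ∈ ⋂ i ∈ F, C i := by
      ext F
      simp only [Finset.mem_powerset, Finset.mem_filter, Set.mem_iInter]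
      constructor
      · intro h
        exact ⟨fun i hi => (Finset.mem_filter.1 (h hi)).1,
          fun i hi => (Finset.mem_filter.1 (h hi)).2⟩
      · rintro ⟨h, h'⟩ i hi
        exact Finset.mem_filter.2 ⟨h hi, h' i hi⟩
    have h3 : ((2 ^ (I.filter fun i => ω ∈ C i).card : ℕ) : ℝ≥0∞) =
        ∑ F ∈ I.powerset, (⋂ i ∈ F, C i).indicator (fun _ => (1 : ℝ≥0∞)) ω := by
      rw [← Finset.card_powerset, h2, Finset.card_filter]
      push_cast
      refine Finset.sum_congr rfl fun F _ => ?_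
      by_cases h : ω ∈ ⋂ i ∈ F, C i
      · rw [if_pos h, Set.indicator_of_mem h]
      · rw [if_neg h, Set.indicator_of_notMem h]
    rw [← h3]
    push_cast
    rfl
  simp only [h1]
  rw [lintegral_finsetSum]
  · refine Finset.sum_congr rfl fun F hF => ?_
    have hm : MeasurableSet (⋂ i ∈ F, C i) := Finset.measurableSet_biInter F fun i _ => hC i
    rw [lintegral_indicator hm, lintegral_const, one_mul, Measure.restrict_apply MeasurableSet.univ,
      Set.univ_inter, hP F (Finset.mem_powerset.1 hF)]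
  · intro F _
    exact measurable_const.indicator (Finset.measurableSet_biInter F fun i _ => hC i)

open Classical in
/-- Markov's inequality for `2^X`. -/
lemma tail_count (P : Measure Ω) (C : ι → Set Ω) (I : Finset ι)
    (hC : ∀ i, MeasurableSet (C i))
    (hP : ∀ F : Finset ι, F ⊆ I → P (⋂ i ∈ F, C i) = ∏ i ∈ F, P (C i))
    (hfin : ∀ i ∈ I, P (C i) ≠ ∞) (μ x : ℝ) (hμ : ∑ i ∈ I, (P (C i)).toReal ≤ μ) :
    P {ω | x ≤ ((I.filter fun i => ω ∈ C i).card : ℝ)} ≤
      ENNReal.ofReal (Real.exp μ * (2 : ℝ) ^ (-x)) := by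
  have h1 := exp_count P C I hC hP
  have h2 : ∏ i ∈ I, (1 + P (C i)) ≤ ENNReal.ofReal (Real.exp μ) := by
    have h3 : ∏ i ∈ I, (1 + P (C i)) = ENNReal.ofReal (∏ i ∈ I, (1 + (P (C i)).toReal)) := by
      rw [ENNReal.ofReal_prod_of_nonneg fun i _ => by positivity]
      refine Finset.prod_congr rfl fun i hi => ?_
      rw [ENNReal.ofReal_add zero_le_one ENNReal.toReal_nonneg, ENNReal.ofReal_one,
        ENNReal.ofReal_toReal (hfin i hi)]
    rw [h3]
    refine ENNReal.ofReal_le_ofReal ?_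
    calc ∏ i ∈ I, (1 + (P (C i)).toReal) ≤ ∏ i ∈ I, Real.exp ((P (C i)).toReal) := by
          refine Finset.prod_le_prod (fun i _ => by positivity) fun i _ => ?_
          rw [add_comm]
          exact Real.add_one_le_exp _
      _ = Real.exp (∑ i ∈ I, (P (C i)).toReal) := (Real.exp_sum _ _).symm
      _ ≤ Real.exp μ := Real.exp_le_exp.2 hμ
  have hmeas : Measurable fun ω => (2 : ℝ≥0∞) ^ (I.filter fun i => ω ∈ C i).card := by
    have h4 : ∀ ω, ((I.filter fun i => ω ∈ C i).card : ℕ) =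
        ∑ i ∈ I, (C i).indicator (fun _ => (1 : ℕ)) ω := by
      intro ω
      rw [Finset.card_filter]
      refine Finset.sum_congr rfl fun i _ => ?_
      by_cases h : ω ∈ C i
      · rw [if_pos h, Set.indicator_of_mem h]
      · rw [if_neg h, Set.indicator_of_notMem h]
    simp only [h4]
    refine (measurable_from_nat (f := fun n : ℕ => (2 : ℝ≥0∞) ^ n)).comp ?_
    exact Finset.measurable_sum _ fun i _ => measurable_const.indicator (hC i)
  have h5 := mul_meas_ge_le_lintegral₀ (μ := P) hmeas.aemeasurable (ENNReal.ofReal ((2 : ℝ) ^ x))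
  rw [h1] at h5
  have hset : {ω | x ≤ ((I.filter fun i => ω ∈ C i).card : ℝ)} ⊆
      {ω | ENNReal.ofReal ((2 : ℝ) ^ x) ≤ (2 : ℝ≥0∞) ^ (I.filter fun i => ω ∈ C i).card} := by
    intro ω hω
    rw [Set.mem_ofPred_eq] at hω ⊢
    have h6 : (2 : ℝ≥0∞) ^ (I.filter fun i => ω ∈ C i).card =
        ENNReal.ofReal ((2 : ℝ) ^ ((I.filter fun i => ω ∈ C i).card : ℝ)) := by
      rw [Real.rpow_natCast, ENNReal.ofReal_pow (by norm_num)]
      norm_num
    rw [h6]
    exact ENNReal.ofReal_le_ofReal (Real.rpow_le_rpow_of_exponent_le (by norm_num) hω)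
  have h7 : ENNReal.ofReal ((2 : ℝ) ^ x) *
      P {ω | x ≤ ((I.filter fun i => ω ∈ C i).card : ℝ)} ≤ ENNReal.ofReal (Real.exp μ) :=
    (mul_le_mul_right (measure_mono hset) _).trans (h5.trans h2)
  have h8 : (0 : ℝ) < (2 : ℝ) ^ x := by positivity
  have h9 : ENNReal.ofReal ((2 : ℝ) ^ x) ≠ 0 := by
    rw [Ne, ENNReal.ofReal_eq_zero, not_le]
    exact h8
  calc P {ω | x ≤ ((I.filter fun i => ω ∈ C i).card : ℝ)}
      ≤ ENNReal.ofReal (Real.exp μ) / ENNReal.ofReal ((2 : ℝ) ^ x) := by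
        rw [ENNReal.le_div_iff_mul_le (Or.inl h9) (Or.inl ENNReal.ofReal_ne_top), mul_comm]
        exact h7
    _ = ENNReal.ofReal (Real.exp μ * (2 : ℝ) ^ (-x)) := by
        rw [← ENNReal.ofReal_div_of_pos h8, Real.rpow_neg (by norm_num), div_eq_mul_inv]

end Pool.Agent.Run7.h534.RS
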