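import Pool.Agent.Run7.h534.RS.Prob

/-!
# Random subsets of `ℤ^d`: numbers of representations `v = m + m'`, part 2
-/

set_option autoImplicit false

namespace Pool.Agent.Run7.h534.RS

open MeasureTheory ProbabilityTheory
open scoped ENNReal

/-- the lattice points with all coordinates in `(-R, R)` -/
noncomputable def bx (d R : ℕ) : Finset (Fin d → ℤ) := Fintype.piFinset fun _ => Finset.Ioo (-(R : ℤ)) R

lemma mem_bx {d R : ℕ} (m : Fin d → ℤ) : m ∈ bx d R ↔ ∀ i, |m i| < R := by
  unfold bx
  simp only [Fintype.mem_piFinset, Finset.mem_Ioo, abs_lt]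

lemma bx_mono {d R R' : ℕ} (h : R ≤ R') : bx d R ⊆ bx d R' := by
  intro m hm
  rw [mem_bx] at hm ⊢
  intro i
  have := hm i
  have h' : (R : ℤ) ≤ R' := by exact_mod_cast h
  omega

lemma card_bx (d R : ℕ) : (bx d R).card ≤ (2 * R) ^ d := by
  unfold bx
  rw [Fintype.card_piFinset]
  simp only [Int.card_Ioo, Finset.prod_const, Finset.card_univ, Fintype.card_fin]
  refine Nat.pow_le_pow_left ?_ d
  omega

open Classical in
/-- the representations `v = m + m'` with `m, m'` in `S ∩ (-R, R)^d` -/
noncomputable def reps {d : ℕ} (S : Set (Fin d → ℤ)) (R : ℕ) (v : Fin d → ℤ) :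
    Finset (Fin d → ℤ) := (bx d R).filter fun m => m ∈ S ∧ v - m ∈ S ∧ v - m ∈ bx d R

/-- half of the pairs -/
noncomputable def half {d : ℕ} (R : ℕ) (v : Fin d → ℤ) : Finset (Fin d → ℤ) :=
  (bx d R).filter fun m => v - m ∈ bx d R ∧ Encodable.encode m < Encodable.encode (v - m)

open Classical in
lemma reps_card {d : ℕ} (S : Set (Fin d → ℤ)) (R : ℕ) (v : Fin d → ℤ) :
    (reps S R v).card ≤ 2 * ((half R v).filter fun m => m ∈ S ∧ v - m ∈ S).card + 1 := by
  obtain ⟨A, hA⟩ : ∃ A, A = (half R v).filter fun m => m ∈ S ∧ v - m ∈ S := ⟨_, rfl⟩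
  rw [← hA]
  have h1 : reps S R v ⊆ (A ∪ A.image fun m => v - m) ∪
      ((bx d R).filter fun m => m = v - m) := by
    intro m hm
    unfold reps at hm
    rw [Finset.mem_filter] at hm
    obtain ⟨hm1, hm2, hm3, hm4⟩ := hm
    rw [Finset.mem_union, Finset.mem_union]
    rcases lt_trichotomy (Encodable.encode m) (Encodable.encode (v - m)) with h | h | h
    · left; left
      rw [hA, Finset.mem_filter]
      refine ⟨?_, hm2, hm3⟩
      unfold half
      rw [Finset.mem_filter]
      exact ⟨hm1, hm4, h⟩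
    · right
      rw [Finset.mem_filter]
      exact ⟨hm1, Encodable.encode_injective h⟩
    · left; right
      rw [Finset.mem_image]
      refine ⟨v - m, ?_, sub_sub_cancel v m⟩
      rw [hA, Finset.mem_filter, sub_sub_cancel]
      refine ⟨?_, hm3, hm2⟩
      unfold half
      rw [Finset.mem_filter, sub_sub_cancel]
      exact ⟨hm4, hm1, h⟩
  have h2 : ((bx d R).filter fun m => m = v - m).card ≤ 1 := by
    rw [Finset.card_le_one]
    intro a ha b hb
    rw [Finset.mem_filter] at ha hb
    funext i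
    have e1 := congrFun ha.2 i
    have e2 := congrFun hb.2 i
    rw [Pi.sub_apply] at e1 e2
    omega
  calc (reps S R v).card ≤ _ := Finset.card_le_card h1
    _ ≤ (A ∪ A.image fun m => v - m).card + ((bx d R).filter fun m => m = v - m).card :=
        Finset.card_union_le _ _
    _ ≤ (A.card + (A.image fun m => v - m).card) + 1 :=
        add_le_add (Finset.card_union_le _ _) h2
    _ ≤ (A.card + A.card) + 1 :=
        Nat.add_le_add_right (Nat.add_le_add_left Finset.card_image_le _) _
    _ = 2 * A.card + 1 := by ring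

variable {d : ℕ} {Ω : Type} [MeasurableSpace Ω]

lemma pair_prod (P : Measure Ω) (B : (Fin d → ℤ) → Set Ω) (hind : iIndepSet B P) (R : ℕ)
    (v : Fin d → ℤ) (F : Finset (Fin d → ℤ)) (hF : F ⊆ half R v) :
    P (⋂ m ∈ F, (B m ∩ B (v - m))) = ∏ m ∈ F, (P (B m) * P (B (v - m))) := by
  classical
  have hdis : Disjoint F (F.image fun m => v - m) := by
    rw [Finset.disjoint_left]
    intro n hn hn'
    rw [Finset.mem_image] at hn'
    obtain ⟨m, hm, rfl⟩ := hn'
    have h1 := hF hm
    have h2 := hF hn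
    unfold half at h1 h2
    rw [Finset.mem_filter] at h1 h2
    have h3 := h1.2.2
    have h4 := h2.2.2
    rw [sub_sub_cancel] at h4
    omega
  have hset : (⋂ m ∈ F, (B m ∩ B (v - m))) = ⋂ m ∈ (F ∪ F.image fun m => v - m), B m := by
    ext ω
    simp only [Set.mem_iInter, Set.mem_inter_iff, Finset.mem_union, Finset.mem_image]
    constructor
    · rintro h m (hm | ⟨n, hn, rfl⟩)
      · exact (h m hm).1
      · exact (h n hn).2
    · intro h m hm
      exact ⟨h m (Or.inl hm), h (v - m) (Or.inr ⟨m, hm, rfl⟩)⟩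
  rw [hset, hind.meas_biInter, Finset.prod_union hdis, Finset.prod_image, Finset.prod_mul_distrib]
  intro a _ b _ hab
  exact sub_right_injective hab

open Classical in
lemma tail_reps (P : Measure Ω) [IsProbabilityMeasure P] (B : (Fin d → ℤ) → Set Ω)
    (hB : ∀ m, MeasurableSet (B m)) (hind : iIndepSet B P) (R : ℕ) (v : Fin d → ℤ) (μ x : ℝ)
    (hμ : ∑ m ∈ bx d R, (P (B m)).toReal ^ 2 ≤ μ) :
    P {ω | x ≤ (((half R v).filter fun m => ω ∈ B m ∩ B (v - m)).card : ℝ)} ≤
      ENNReal.ofReal (Real.exp μ * (2 : ℝ) ^ (-x)) := by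
  have hone : ∀ m ∈ half R v, P (B m ∩ B (v - m)) = P (B m) * P (B (v - m)) := by
    intro m hm
    have := pair_prod P B hind R v {m} (by simpa using hm)
    simpa using this
  have key := tail_count P (fun m => B m ∩ B (v - m)) (half R v)
    (fun m => (hB m).inter (hB (v - m))) ?_ (fun m _ => measure_ne_top P _) μ x ?_
  · convert key
  · intro F hF
    rw [pair_prod P B hind R v F hF]
    exact Finset.prod_congr rfl fun m hm => (hone m (hF hm)).symm
  · have h1 : ∀ m ∈ half R v, (P (B m ∩ B (v - m))).toReal ≤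
        ((P (B m)).toReal ^ 2 + (P (B (v - m))).toReal ^ 2) / 2 := by
      intro m hm
      rw [hone m hm, ENNReal.toReal_mul]
      nlinarith [sq_nonneg ((P (B m)).toReal - (P (B (v - m))).toReal)]
    have h2 : ∑ m ∈ half R v, (P (B m)).toReal ^ 2 ≤ ∑ m ∈ bx d R, (P (B m)).toReal ^ 2 :=
      Finset.sum_le_sum_of_subset_of_nonneg (Finset.filter_subset _ _) fun _ _ _ => sq_nonneg _
    have h3 : ∑ m ∈ half R v, (P (B (v - m))).toReal ^ 2 ≤
        ∑ m ∈ bx d R, (P (B m)).toReal ^ 2 := by
      have h4 : ∑ m ∈ half R v, (P (B (v - m))).toReal ^ 2 =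
          ∑ m ∈ (half R v).image fun m => v - m, (P (B m)).toReal ^ 2 := by
        rw [Finset.sum_image]
        intro a _ b _ hab
        exact sub_right_injective hab
      rw [h4]
      refine Finset.sum_le_sum_of_subset_of_nonneg ?_ fun _ _ _ => sq_nonneg _
      intro n hn
      rw [Finset.mem_image] at hn
      obtain ⟨m, hm, rfl⟩ := hn
      unfold half at hm
      rw [Finset.mem_filter] at hm
      exact hm.2.1
    calc ∑ m ∈ half R v, (P (B m ∩ B (v - m))).toReal
        ≤ ∑ m ∈ half R v, ((P (B m)).toReal ^ 2 + (P (B (v - m))).toReal ^ 2) / 2 :=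
          Finset.sum_le_sum h1
      _ = (∑ m ∈ half R v, (P (B m)).toReal ^ 2 +
            ∑ m ∈ half R v, (P (B (v - m))).toReal ^ 2) / 2 := by
          rw [← Finset.sum_div, Finset.sum_add_distrib]
      _ ≤ μ := by linarith

end Pool.Agent.Run7.h534.RS
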